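import Mathlib

/-! MP_92b5af: a group which is residually finite and residually soluble but not residually
finite-soluble. -/

namespace Pool.Agent.Results.MP_92b5af_al.ResFinResSol

open Polynomial Matrix
open scoped commutatorElement

/-- `S = {s ∈ ℤ[X] : s(1) = 1, s(0) ≠ 0}` -/
def S : Submonoid ℤ[X] where
  carrier := {s | s.eval 1 = 1 ∧ s.eval 0 ≠ 0}
  one_mem' := by simp
  mul_mem' := by
    rintro a b ⟨h1, h2⟩ ⟨h3, h4⟩
    exact ⟨by rw [eval_mul, h1, h3, one_mul], by rw [eval_mul]; exact mul_ne_zero h2 h4⟩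

/-- `R = S⁻¹ ℤ[X]` -/
abbrev R : Type := Localization S

theorem S_le : S ≤ nonZeroDivisors ℤ[X] := by
  intro s hs
  rw [mem_nonZeroDivisors_iff_ne_zero]
  rintro rfl
  exact hs.2 (by simp)

noncomputable instance : IsDomain R := IsLocalization.isDomain_localization S_le

/-- the element `t = X` -/
noncomputable def t : R := algebraMap ℤ[X] R X

theorem alg_inj : Function.Injective (algebraMap ℤ[X] R) := IsLocalization.injective R S_le

/-- `N b + t c = 1` is solvable for every `N ≥ 1`. -/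
theorem exists_bc (N : ℕ) (hN : 0 < N) : ∃ b c : R, (N : R) * b + t * c = 1 := by
  let s : ℤ[X] := (N : ℤ[X]) + (1 - (N : ℤ[X])) * X
  have hs : s ∈ S := by
    refine ⟨by simp [s], ?_⟩
    simp [s]
    omega
  obtain ⟨b, hb⟩ := (IsLocalization.map_units R (⟨s, hs⟩ : S)).exists_right_inv
  refine ⟨b, (1 - (N : R)) * b, ?_⟩
  have : algebraMap ℤ[X] R s = (N : R) + (1 - (N : R)) * t := by
    simp [s, t]
  have hb' : algebraMap ℤ[X] R s * b = 1 := hb
  rw [this] at hb'
  linear_combination hb'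

/-- the specialisations `ρ : R → ZMod (q^k)`, `X ↦ 1 + q` -/
theorem exists_spec (r : R) (hr : r ≠ 0) : ∃ (n : ℕ) (_ : NeZero n) (ρ : R →+* ZMod n), ρ r ≠ 0 := by
  obtain ⟨f, s, rfl⟩ := IsLocalization.exists_mk'_eq S r
  have hf : f ≠ 0 := by
    rintro rfl
    exact hr (IsLocalization.mk'_zero _)
  -- choose q
  obtain ⟨q, hq2, hq⟩ : ∃ q : ℕ, 2 ≤ q ∧ f.eval (1 + (q : ℤ)) ≠ 0 := by
    by_contra hcon
    push Not at hcon
    have hinf : (Set.range fun q : ℕ => (1 + ((q + 2 : ℕ) : ℤ))).Infinite := by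
      apply Set.infinite_range_of_injective
      intro a b hab
      simp at hab
      exact hab
    apply hf
    apply Polynomial.eq_zero_of_infinite_isRoot
    apply hinf.mono
    rintro _ ⟨q, rfl⟩
    exact hcon (q + 2) (by omega)
  obtain ⟨k, hk⟩ : ∃ k : ℕ, (f.eval (1 + (q : ℤ))).natAbs < q ^ k :=
    ⟨_, Nat.lt_pow_self (by omega)⟩
  have hq0 : 0 < q ^ k := by positivity
  let g : ℤ[X] →+* ZMod (q ^ k) := (Int.castRingHom _).comp (Polynomial.evalRingHom (1 + (q : ℤ)))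
  have hg : ∀ y : S, IsUnit (g y) := by
    intro y
    show IsUnit (((eval (1 + (q : ℤ)) (y : ℤ[X]) : ℤ)) : ZMod (q ^ k))
    rw [ZMod.coe_int_isUnit_iff_isCoprime]
    push_cast
    apply IsCoprime.pow_left
    have h1 := Polynomial.sub_dvd_eval_sub (1 + (q : ℤ)) 1 (y : ℤ[X])
    rw [y.2.1] at h1
    obtain ⟨c, hc⟩ := h1
    refine ⟨-c, 1, ?_⟩
    have : eval (1 + (q : ℤ)) (y : ℤ[X]) = 1 + q * c := by linear_combination hc
    rw [this]; ring
  refine ⟨q ^ k, ⟨hq0.ne'⟩, IsLocalization.lift (M := S) (S := R) hg, ?_⟩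
  intro h0
  rw [IsLocalization.lift_mk'] at h0
  have h1 : g f = 0 := by
    have := (Units.mul_left_eq_zero _).1 h0
    exact this
  have h2 : ((f.eval (1 + (q : ℤ)) : ℤ) : ZMod (q ^ k)) = 0 := h1
  rw [ZMod.intCast_zmod_eq_zero_iff_dvd] at h2
  have h3 := Int.natAbs_dvd_natAbs.2 h2
  simp only [Int.natAbs_natCast] at h3
  have := Nat.le_of_dvd (by omega) h3
  omega

/-- `⋂ tⁿ R = 0` -/
theorem t_adic (r : R) (hr : r ≠ 0) : ∃ n : ℕ, ∀ m ≥ n, ¬ t ^ m ∣ r := by
  obtain ⟨f, s, rfl⟩ := IsLocalization.exists_mk'_eq S r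
  have hf : f ≠ 0 := by
    rintro rfl
    exact hr (IsLocalization.mk'_zero _)
  refine ⟨f.natDegree + 1, ?_⟩
  rintro m hm ⟨r', hr'⟩
  obtain ⟨f', s', rfl⟩ := IsLocalization.exists_mk'_eq S r'
  have h1 : algebraMap ℤ[X] R (f * (s' : ℤ[X])) = algebraMap ℤ[X] R (X ^ m * f' * (s : ℤ[X])) := by
    have e1 := IsLocalization.mk'_spec R f s
    have e2 := IsLocalization.mk'_spec R f' s'
    rw [hr'] at e1
    have e3 : algebraMap ℤ[X] R (X ^ m) = t ^ m := by rw [map_pow]; rfl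
    rw [map_mul, map_mul, map_mul, ← e1, ← e2, e3]
    ring
  have h2 := alg_inj h1
  have h3 : (X : ℤ[X]) ^ m ∣ f * (s' : ℤ[X]) := ⟨f' * (s : ℤ[X]), by rw [h2]; ring⟩
  have h4 : ¬ (X : ℤ[X]) ∣ (s' : ℤ[X]) := by
    rw [X_dvd_iff, coeff_zero_eq_eval_zero]
    exact s'.2.2
  have h5 : (X : ℤ[X]) ^ m ∣ f := prime_X.pow_dvd_of_dvd_mul_right m h4 h3
  have h6 := Polynomial.natDegree_le_of_dvd h5 hf
  rw [natDegree_X_pow] at h6
  omega

/-- elementary matrices as units -/
noncomputable def U (i j : Fin 3) (h : i ≠ j) (r : R) : (Matrix (Fin 3) (Fin 3) R)ˣ where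
  val := transvection i j r
  inv := transvection i j (-r)
  val_inv := by rw [transvection_mul_transvection_same _ _ h]; simp
  inv_val := by rw [transvection_mul_transvection_same _ _ h]; simp

/-- the generators -/
noncomputable def gens : Set (Matrix (Fin 3) (Fin 3) R)ˣ := {g | ∃ (i j : Fin 3) (h : i ≠ j) (r : R), g = U i j h (t * r)}

/-- the group -/
noncomputable def G : Subgroup (Matrix (Fin 3) (Fin 3) R)ˣ := Subgroup.closure gens

theorem U_mem (i j : Fin 3) (h : i ≠ j) (r : R) : U i j h (t * r) ∈ G :=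
  Subgroup.subset_closure ⟨i, j, h, r, rfl⟩

/-- generators as elements of the group -/
noncomputable def E (i j : Fin 3) (h : i ≠ j) (r : R) : G := ⟨U i j h (t * r), U_mem i j h r⟩

theorem E_add (i j : Fin 3) (h : i ≠ j) (r r' : R) : E i j h (r + r') = E i j h r * E i j h r' := by
  apply Subtype.ext; apply Units.ext
  show transvection i j _ = transvection i j _ * transvection i j _
  rw [transvection_mul_transvection_same _ _ h, mul_add]

theorem E_zero (i j : Fin 3) (h : i ≠ j) : E i j h 0 = 1 := by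
  apply Subtype.ext; apply Units.ext
  show transvection i j _ = 1
  simp

theorem E_nsmul (i j : Fin 3) (h : i ≠ j) (r : R) (n : ℕ) : E i j h ((n : R) * r) = E i j h r ^ n := by
  induction n with
  | zero => simp [E_zero]
  | succ n ih => rw [pow_succ, ← ih, ← E_add]; congr 1; push_cast; ring

theorem E_comm (i j k : Fin 3) (hij : i ≠ j) (hik : i ≠ k) (hkj : k ≠ j) (r r' : R) :
    E i k hik r * E k j hkj r' = E i j hij (t * (r * r')) * (E k j hkj r' * E i k hik r) := by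
  apply Subtype.ext; apply Units.ext
  show transvection i k _ * transvection k j _ =
    transvection i j _ * (transvection k j _ * transvection i k _)
  unfold transvection
  have e1 : (single k j (t * r') : Matrix (Fin 3) (Fin 3) R) * single i k (t * r) = 0 := by
    rw [single_mul_single_of_ne]; exact hij.symm
  have e2 : (single i k (t * r) : Matrix (Fin 3) (Fin 3) R) * single k j (t * r') =
      single i j (t * (t * (r * r'))) := by
    rw [single_mul_single_same]; congr 1; ring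
  have e3 : (single i j (t * (t * (r * r'))) : Matrix (Fin 3) (Fin 3) R) * single k j (t * r') = 0 := by
    rw [single_mul_single_of_ne]; exact hkj.symm
  have e4 : (single i j (t * (t * (r * r'))) : Matrix (Fin 3) (Fin 3) R) * single i k (t * r) = 0 := by
    rw [single_mul_single_of_ne]; exact hij.symm
  have e5 : ∀ a b c : Matrix (Fin 3) (Fin 3) R, c * b = 0 → c * a = 0 → b * a = 0 → a * b = c →
      (1 + a) * (1 + b) = (1 + c) * ((1 + b) * (1 + a)) := by
    intro a b c h1 h2 h3 h4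
    have : (1 + c) * ((1 + b) * (1 + a)) = 1 + a + b + b * a + c + c * a + c * b + c * (b * a) := by
      noncomm_ring
    rw [this, h3, h2, h1, ← h4]
    noncomm_ring
  exact e5 _ _ _ e3 e4 e1 e2

/-- Every homomorphism from `G` to a finite abelian group is trivial. -/
theorem hom_trivial {A : Type*} [CommGroup A] [Finite A] (φ : G →* A) (g : G) : φ g = 1 := by
  have hgen : ∀ (i j : Fin 3) (h : i ≠ j) (r : R), φ (E i j h r) = 1 := by
    intro i j h r
    obtain ⟨b, c, hbc⟩ := exists_bc (Nat.card A) Nat.card_pos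
    obtain ⟨k, hk1, hk2⟩ : ∃ k : Fin 3, i ≠ k ∧ k ≠ j := by revert i j; decide
    have e : r = (Nat.card A : R) * (b * r) + t * (1 * (c * r)) := by
      linear_combination (-r) * hbc
    rw [e, E_add, map_mul, E_nsmul, map_pow, pow_card_eq_one', one_mul]
    have h2 := congrArg φ (E_comm i j k h hk1 hk2 1 (c * r))
    rw [map_mul, map_mul, map_mul, mul_comm (φ (E k j hk2 (c * r)))] at h2
    exact (mul_eq_right.1 h2.symm)
  obtain ⟨g, hg⟩ := g
  induction hg using Subgroup.closure_induction with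
  | mem x hx =>
    obtain ⟨i, j, h, r, rfl⟩ := hx
    exact hgen i j h r
  | one => exact map_one φ
  | mul x y hx hy h1 h2 =>
    have : (⟨x * y, _⟩ : G) = ⟨x, hx⟩ * ⟨y, hy⟩ := rfl
    rw [this, map_mul, h1, h2, one_mul]
  | inv x hx h1 =>
    have : (⟨x⁻¹, _⟩ : G) = (⟨x, hx⟩ : G)⁻¹ := rfl
    rw [this, map_inv, h1, inv_one]

/-- congruence subgroups -/
noncomputable def Gam (n : ℕ) : Subgroup (Matrix (Fin 3) (Fin 3) R)ˣ where
  carrier := {g | ∃ A : Matrix (Fin 3) (Fin 3) R, (g : Matrix (Fin 3) (Fin 3) R) = 1 + t ^ n • A}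
  one_mem' := ⟨0, by simp⟩
  mul_mem' := by
    rintro g h ⟨A, hA⟩ ⟨B, hB⟩
    refine ⟨A + B + t ^ n • (A * B), ?_⟩
    rw [Units.val_mul, hA, hB]
    simp only [mul_add, add_mul, one_mul, mul_one, smul_mul_assoc, mul_smul_comm, smul_add]
    abel
  inv_mem' := by
    rintro g ⟨A, hA⟩
    refine ⟨-(A * (g⁻¹ : (Matrix (Fin 3) (Fin 3) R)ˣ)), ?_⟩
    have h : (g : Matrix (Fin 3) (Fin 3) R) * (g⁻¹ : (Matrix (Fin 3) (Fin 3) R)ˣ) = 1 := g.mul_inv
    rw [hA, add_mul, one_mul, smul_mul_assoc] at h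
    rw [smul_neg, ← sub_eq_add_neg, eq_sub_iff_add_eq]
    exact h

theorem comm_mem {n : ℕ} {g h : (Matrix (Fin 3) (Fin 3) R)ˣ} (hg : g ∈ Gam n) (hh : h ∈ Gam n) :
    ⁅g, h⁆ ∈ Gam (n + n) := by
  obtain ⟨A, hA⟩ := hg
  obtain ⟨B, hB⟩ := hh
  refine ⟨(A * B - B * A) * ((h * g)⁻¹ : (Matrix (Fin 3) (Fin 3) R)ˣ), ?_⟩
  have h1 : (g : Matrix (Fin 3) (Fin 3) R) * h = h * g + t ^ (n + n) • (A * B - B * A) := by
    rw [hA, hB, pow_add]
    simp only [mul_add, add_mul, one_mul, mul_one, smul_mul_assoc, mul_smul_comm, smul_sub, smul_add,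
      mul_smul]
    abel
  have h2 : (⁅g, h⁆ : (Matrix (Fin 3) (Fin 3) R)ˣ) = (g * h) * (h * g)⁻¹ := by
    rw [commutatorElement_def]; group
  rw [h2, Units.val_mul, Units.val_mul, h1, add_mul, smul_mul_assoc]
  congr 1
  have := (h * g).mul_inv
  rw [Units.val_mul] at this
  exact this

theorem derived_le (k : ℕ) : derivedSeries G k ≤ (Gam (2 ^ k)).comap G.subtype := by
  induction k with
  | zero =>
    intro g _
    obtain ⟨g, hg⟩ := g
    show g ∈ Gam (2 ^ 0)
    rw [pow_zero]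
    refine (Subgroup.closure_le _).2 ?_ hg
    rintro _ ⟨i, j, h, r, rfl⟩
    refine ⟨single i j r, ?_⟩
    show transvection i j (t * r) = _
    rw [transvection, pow_one, smul_single, smul_eq_mul]
  | succ k ih =>
    rw [derivedSeries_succ, Subgroup.commutator_le]
    intro g hg h hh
    have := comm_mem (ih hg) (ih hh)
    rw [pow_succ, mul_two]
    exact this

theorem entry_ne {g : G} (hg : g ≠ 1) : ∃ i j, ((g : (Matrix (Fin 3) (Fin 3) R)ˣ) : Matrix (Fin 3) (Fin 3) R) i j - (1 : Matrix (Fin 3) (Fin 3) R) i j ≠ 0 := by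
  by_contra hcon
  push Not at hcon
  apply hg
  apply Subtype.ext; apply Units.ext
  ext i j
  exact sub_eq_zero.1 (hcon i j)

theorem res_finite (g : G) (hg : g ≠ 1) :
    ∃ N : Subgroup G, N.Normal ∧ g ∉ N ∧ Finite (G ⧸ N) := by
  obtain ⟨i, j, hij⟩ := entry_ne hg
  obtain ⟨n, hn, ρ, hρ⟩ := exists_spec _ hij
  let φ : G →* (Matrix (Fin 3) (Fin 3) (ZMod n))ˣ :=
    (Units.map (ρ.mapMatrix : Matrix (Fin 3) (Fin 3) R →+* Matrix (Fin 3) (Fin 3) (ZMod n)).toMonoidHom).comp G.subtype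
  refine ⟨φ.ker, inferInstance, ?_, ?_⟩
  · intro h
    rw [MonoidHom.mem_ker] at h
    have h1 := congrArg (fun u : (Matrix (Fin 3) (Fin 3) (ZMod n))ˣ => (u : Matrix (Fin 3) (Fin 3) (ZMod n)) i j) h
    have h2 : ρ (((g : (Matrix (Fin 3) (Fin 3) R)ˣ) : Matrix (Fin 3) (Fin 3) R) i j) = (1 : Matrix (Fin 3) (Fin 3) (ZMod n)) i j := h1
    apply hρ
    rw [map_sub, h2, Matrix.one_apply, Matrix.one_apply]
    split_ifs <;> simp
  · have : Finite (Matrix (Fin 3) (Fin 3) (ZMod n)) := by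
      unfold Matrix; infer_instance
    exact Finite.of_equiv _ (QuotientGroup.quotientKerEquivRange φ).symm.toEquiv

theorem res_soluble (g : G) (hg : g ≠ 1) :
    ∃ (N : Subgroup G) (_ : N.Normal), g ∉ N ∧ Group.IsSolvable (G ⧸ N) := by
  obtain ⟨i, j, hij⟩ := entry_ne hg
  obtain ⟨n, hn⟩ := t_adic _ hij
  have hnn : n < 2 ^ n := Nat.lt_two_pow_self
  refine ⟨derivedSeries G n, inferInstance, ?_, ?_⟩
  · intro h
    obtain ⟨A, hA⟩ := derived_le n h
    apply hn (2 ^ n) hnn.le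
    refine ⟨A i j, ?_⟩
    have h1 := congrFun (congrFun hA i) j
    have h2 : ((g : (Matrix (Fin 3) (Fin 3) R)ˣ) : Matrix (Fin 3) (Fin 3) R) i j = (1 : Matrix (Fin 3) (Fin 3) R) i j + t ^ 2 ^ n * A i j := h1
    rw [h2]; ring
  · refine ⟨n, ?_⟩
    rw [← map_derivedSeries_eq (QuotientGroup.mk'_surjective (derivedSeries G n)) n,
      Subgroup.map_eq_bot_iff, QuotientGroup.ker_mk']

theorem not_res : ¬ ∀ g : G, g ≠ 1 →
    ∃ (N : Subgroup G) (_ : N.Normal), g ∉ N ∧ Finite (G ⧸ N) ∧ Group.IsSolvable (G ⧸ N) := by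
  intro hall
  have hne : E 0 1 (by decide) 1 ≠ 1 := by
    intro h
    have h1 := congrArg (fun u : G => ((u : (Matrix (Fin 3) (Fin 3) R)ˣ) : Matrix (Fin 3) (Fin 3) R) 0 1) h
    have h2 : (transvection 0 1 (t * 1) : Matrix (Fin 3) (Fin 3) R) 0 1 = (1 : Matrix (Fin 3) (Fin 3) R) 0 1 := h1
    simp [transvection] at h2
    have h3 : algebraMap ℤ[X] R X = algebraMap ℤ[X] R 0 := by rw [map_zero]; exact h2
    exact X_ne_zero (alg_inj h3)
  obtain ⟨N, hN, hgN, hfin, hsol⟩ := hall _ hne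
  have hnt : Nontrivial (G ⧸ N) := by
    refine ⟨QuotientGroup.mk (E 0 1 (by decide) 1), 1, fun h => hgN ?_⟩
    exact (QuotientGroup.eq_one_iff _).1 h
  have hlt := Group.IsSolvable.commutator_lt_top_of_nontrivial (G ⧸ N)
  apply hlt.ne
  rw [eq_top_iff]
  intro x _
  obtain ⟨g, rfl⟩ := QuotientGroup.mk'_surjective N x
  have := hom_trivial ((Abelianization.of (G := G ⧸ N)).comp (QuotientGroup.mk' N)) g
  rw [MonoidHom.comp_apply, ← MonoidHom.mem_ker, Abelianization.ker_of] at this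
  exact this

/-- **Main theorem.** There is a group which is residually finite and residually soluble but not
residually finite-soluble. -/
theorem result : ∃ (Γ : Type) (_ : Group Γ),
    (∀ g : Γ, g ≠ 1 → ∃ N : Subgroup Γ, N.Normal ∧ g ∉ N ∧ Finite (Γ ⧸ N)) ∧
    (∀ g : Γ, g ≠ 1 → ∃ (N : Subgroup Γ) (_ : N.Normal), g ∉ N ∧ Group.IsSolvable (Γ ⧸ N)) ∧
    ¬ ∀ g : Γ, g ≠ 1 →
      ∃ (N : Subgroup Γ) (_ : N.Normal), g ∉ N ∧ Finite (Γ ⧸ N) ∧ Group.IsSolvable (Γ ⧸ N) :=
  ⟨G, inferInstance, res_finite, res_soluble, not_res⟩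

end Pool.Agent.Results.MP_92b5af_al.ResFinResSol
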